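import Mathlib
import Pool.Agent.H671R2.PolyAuto

/-!
# Unidirectional maintenance scheduling: the algorithm

A nonnegative rational number is a pair `(numerator, denominator)` of natural numbers.  A job is
`(r, d, p, a, b)`: release time, deadline, processing time and two further rational numbers.
In the input `a` and `b` are the ends of the location interval; after the preprocessing they are the
travel times from `0` to these ends.
-/

namespace Pool.Agent.R534.TP

/-- nonnegative rational numbers: numerator and denominator -/
abbrev Q : Type := ℕ × ℕ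

/-- sum -/
def radd (x y : Q) : Q := (x.1 * y.2 + y.1 * x.2, x.2 * y.2)

/-- truncated difference -/
def rsub (x y : Q) : Q := (x.1 * y.2 - y.1 * x.2, x.2 * y.2)

/-- product -/
def rmul (x y : Q) : Q := (x.1 * y.1, x.2 * y.2)

/-- quotient -/
def rdiv (x y : Q) : Q := (x.1 * y.2, x.2 * y.1)

/-- one half -/
def rhalf (x : Q) : Q := (x.1, 2 * x.2)

/-- `x ≤ y` -/
def rle (x y : Q) : Bool := decide (x.1 * y.2 ≤ y.1 * x.2)

/-- `x < y` -/
def rlt (x y : Q) : Bool := decide (x.1 * y.2 < y.1 * x.2)

/-- minimum -/
def rmin (x y : Q) : Q := if rle x y = true then x else y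

/-- jobs -/
abbrev Job : Type := Q × Q × Q × Q × Q

/-- preprocessing of a job -/
def pj (L δ : Q) (j : Job) : Job :=
  (j.1, j.2.1, j.2.2.1, rdiv (rmul δ j.2.2.2.1) L, rdiv (rmul δ j.2.2.2.2) L)

/-- the job cannot be finished before the point `i` -/
def aT (ts : List Q) (j : Job) (i : ℕ) : Bool :=
  if i = 0 then true else
    (ts[i - 1]?).elim false (fun t => rle (radd t j.2.2.2.1) (radd j.1 j.2.2.1))

/-- the job cannot be started after the point `k` -/
def bT (ts : List Q) (j : Job) (k : ℕ) : Bool :=
  if k = 0 then false else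
    (ts[k - 1]?).elim true (fun t => rle j.2.1 (radd (radd t j.2.2.1) j.2.2.2.2))

/-- the gap between the points `i` and `k` is long enough for the job -/
def sT (ts : List Q) (j : Job) (i k : ℕ) : Bool :=
  if i = 0 then true else
    (ts[k - 1]?).elim true (fun tk => (ts[i - 1]?).elim true (fun ti =>
      rlt (radd (radd ti j.2.2.1) j.2.2.2.2) (radd tk j.2.2.2.1)))

/-- the job fits into the gap between the points `i` and `k` -/
def fitT (ts : List Q) (j : Job) (i k : ℕ) : Bool := !bT ts j i && (!aT ts j k && sT ts j i k)

/-- `j` is not longer than `j'` -/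
def wle (j j' : Job) : Bool :=
  rle (radd (radd j.2.2.1 j.2.2.2.2) j'.2.2.2.1) (radd (radd j'.2.2.1 j'.2.2.2.2) j.2.2.2.1)

/-- the job has to be done between the points `c` and `d` -/
def inJ (ts : List Q) (c d : ℕ) (j : Job) : Bool := aT ts j c && bT ts j d

/-- the points `0, …, m + 1`; the first and the last one stand for `-∞` and `∞` -/
def idx (ts : List Q) : List ℕ := List.range ((0, 0) :: (0, 0) :: ts).length

/-- table entries -/
abbrev Entry : Type := (ℕ × ℕ) × List ℕ

/-- the candidates for the interval from `c` to `d` -/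
def cands (ts : List Q) (js : List Job) (T : List Entry) (c d : ℕ) : List (List ℕ) :=
  (if decide (c ≤ d) && js.all (fun j => !inJ ts c d j) then
    [(idx ts).filter (fun x => decide (c ≤ x) && decide (x ≤ d))] else []) ++
  js.flatMap (fun j => if inJ ts c d j && js.all (fun j' => !inJ ts c d j' || wle j' j) then
    T.flatMap (fun e => if e.1.1 = c then
      T.flatMap (fun e' => if decide (e'.1.2 = d) && (decide (e.1.2 < e'.1.1) &&
          fitT ts j e.1.2 e'.1.1) then
        [(idx ts).filter (fun x => decide (x ∈ e.2) || decide (x ∈ e'.2))] else []) else [])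
    else [])

/-- the longer one of a list and an optional list -/
def longer (o : Option (List ℕ)) (x : List ℕ) : Option (List ℕ) :=
  o.elim (some x) (fun y => if y.length < x.length then some x else some y)

/-- a longest member of a list of lists -/
def best (l : List (List ℕ)) : Option (List ℕ) := l.foldl longer none

/-- one round of the computation of the table -/
def step (ts : List Q) (js : List Job) (T : List Entry) : List Entry :=
  (idx ts).flatMap (fun c => (idx ts).flatMap (fun d =>
    (best (cands ts js T c d)).elim [] (fun l => [((c, d), l)])))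

/-- the table -/
def table (ts : List Q) (js : List Job) : List Entry := (step ts js)^[(idx ts).length] []

/-- the points which are kept -/
def keep (ts : List Q) (js : List Job) : List ℕ :=
  (best (((table ts js).filter (fun e => decide (e.1 = (0, ts.length + 1)))).map
    (fun e => e.2))).getD []

/-- the gaps of `K` into which the job fits -/
def gaps (ts : List Q) (K : List ℕ) (j : Job) : List (ℕ × ℕ) :=
  K.flatMap (fun i => K.flatMap (fun k => if decide (i < k) &&
    (K.all (fun x => decide (x ≤ i) || decide (k ≤ x)) && fitT ts j i k) then [(i, k)] else []))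

/-- the start time of a job which is put into the gap between the points `g.1` and `g.2` -/
def startT (ts : List Q) (j : Job) (g : ℕ × ℕ) : Q :=
  if g.1 = 0 then j.1 else
    (ts[g.1 - 1]?).elim j.1 (fun ti => if rlt (radd ti j.2.2.2.2) j.1 = true then j.1 else
      rhalf (radd (radd ti j.2.2.2.2) ((ts[g.2 - 1]?).elim (rsub j.2.1 j.2.2.1)
        (fun tk => rmin (rsub j.2.1 j.2.2.1) (rsub (radd tk j.2.2.2.1) j.2.2.1)))))

/-- the start time of a job -/
def start (ts : List Q) (K : List ℕ) (j : Job) : Q :=
  startT ts j ((gaps ts K j).head?.getD (0, 0))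

/-- the start times for preprocessed jobs -/
def sched (ts : List Q) (js : List Job) : List Q := js.map (fun j => start ts (keep ts js) j)

/-- instances: length and travel time, start times of the paths, jobs -/
abbrev Inst : Type := (Q × Q) × List Q × List Job

/-- the algorithm -/
def algo (I : Inst) : List Q := sched I.2.1 (I.2.2.map (pj I.1.1 I.1.2))

/-! ### The algorithm runs in polynomial time -/

open Pool.Agent.NPC

theorem sz_sublist {α : Type} [TEnc α] {l l' : List α} (h : l.Sublist l') : sz l ≤ sz l' := by
  induction h with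
  | slnil => exact le_rfl
  | cons a _ ih => rw [sz_list_cons]; omega
  | cons_cons a _ ih => rw [sz_list_cons, sz_list_cons]; omega

section

variable {α : Type} [TEnc α]

theorem poly_radd {x y : α → Q} (hx : Poly x) (hy : Poly y) : Poly (fun a => radd (x a) (y a)) := by
  unfold radd
  fun_prop

theorem poly_rsub {x y : α → Q} (hx : Poly x) (hy : Poly y) : Poly (fun a => rsub (x a) (y a)) := by
  unfold rsub
  fun_prop

theorem poly_rmul {x y : α → Q} (hx : Poly x) (hy : Poly y) : Poly (fun a => rmul (x a) (y a)) := by
  unfold rmul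
  fun_prop

theorem poly_rdiv {x y : α → Q} (hx : Poly x) (hy : Poly y) : Poly (fun a => rdiv (x a) (y a)) := by
  unfold rdiv
  fun_prop

theorem poly_rhalf {x : α → Q} (hx : Poly x) : Poly (fun a => rhalf (x a)) := by
  unfold rhalf
  fun_prop

theorem poly_rle {x y : α → Q} (hx : Poly x) (hy : Poly y) : Poly (fun a => rle (x a) (y a)) := by
  unfold rle
  fun_prop

theorem poly_rlt {x y : α → Q} (hx : Poly x) (hy : Poly y) : Poly (fun a => rlt (x a) (y a)) := by
  unfold rlt
  fun_prop

attribute [fun_prop] poly_radd poly_rsub poly_rmul poly_rdiv poly_rhalf poly_rle poly_rlt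

theorem poly_rmin {x y : α → Q} (hx : Poly x) (hy : Poly y) : Poly (fun a => rmin (x a) (y a)) := by
  unfold rmin
  fun_prop

attribute [fun_prop] poly_rmin

theorem poly_pj {L δ : α → Q} {j : α → Job} (hL : Poly L) (hδ : Poly δ) (hj : Poly j) :
    Poly (fun a => pj (L a) (δ a) (j a)) := by
  unfold pj
  fun_prop

theorem poly_aT {ts : α → List Q} {j : α → Job} {i : α → ℕ} (hts : Poly ts) (hj : Poly j)
    (hi : Poly i) : Poly (fun a => aT (ts a) (j a) (i a)) := by
  unfold aT
  refine NPC.Poly.ite (by fun_prop) (by fun_prop) (NPC.Poly.optElim (by fun_prop) (by fun_prop)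
    (h := fun a t => rle (radd t (j a).2.2.2.1) (radd (j a).1 (j a).2.2.1)) (by fun_prop))

theorem poly_bT {ts : α → List Q} {j : α → Job} {i : α → ℕ} (hts : Poly ts) (hj : Poly j)
    (hi : Poly i) : Poly (fun a => bT (ts a) (j a) (i a)) := by
  unfold bT
  refine NPC.Poly.ite (by fun_prop) (by fun_prop) (NPC.Poly.optElim (by fun_prop) (by fun_prop)
    (h := fun a t => rle (j a).2.1 (radd (radd t (j a).2.2.1) (j a).2.2.2.2)) (by fun_prop))

theorem poly_sT {ts : α → List Q} {j : α → Job} {i k : α → ℕ} (hts : Poly ts) (hj : Poly j)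
    (hi : Poly i) (hk : Poly k) : Poly (fun a => sT (ts a) (j a) (i a) (k a)) := by
  unfold sT
  refine NPC.Poly.ite (by fun_prop) (by fun_prop) (NPC.Poly.optElim (by fun_prop) (by fun_prop)
    (h := fun a tk => ((ts a)[i a - 1]?).elim true (fun ti =>
      rlt (radd (radd ti (j a).2.2.1) (j a).2.2.2.2) (radd tk (j a).2.2.2.1))) ?_)
  exact NPC.Poly.optElim (by fun_prop) (by fun_prop) (h := fun (q : α × Q) ti =>
      rlt (radd (radd ti (j q.1).2.2.1) (j q.1).2.2.2.2) (radd q.2 (j q.1).2.2.2.1)) (by fun_prop)

attribute [fun_prop] poly_pj poly_aT poly_bT poly_sT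

theorem poly_fitT {ts : α → List Q} {j : α → Job} {i k : α → ℕ} (hts : Poly ts) (hj : Poly j)
    (hi : Poly i) (hk : Poly k) : Poly (fun a => fitT (ts a) (j a) (i a) (k a)) := by
  unfold fitT
  fun_prop

theorem poly_wle {j j' : α → Job} (hj : Poly j) (hj' : Poly j') :
    Poly (fun a => wle (j a) (j' a)) := by
  unfold wle
  fun_prop

theorem poly_inJ {ts : α → List Q} {j : α → Job} {c d : α → ℕ} (hts : Poly ts) (hj : Poly j)
    (hc : Poly c) (hd : Poly d) : Poly (fun a => inJ (ts a) (c a) (d a) (j a)) := by
  unfold inJ
  fun_prop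

theorem poly_idx {ts : α → List Q} (hts : Poly ts) : Poly (fun a => idx (ts a)) := by
  unfold idx
  exact NPC.Poly.range_length (by fun_prop)

attribute [fun_prop] poly_fitT poly_wle poly_inJ poly_idx

theorem poly_cands {ts : α → List Q} {js : α → List Job} {T : α → List Entry} {c d : α → ℕ}
    (hts : Poly ts) (hjs : Poly js) (hT : Poly T) (hc : Poly c) (hd : Poly d) :
    Poly (fun a => cands (ts a) (js a) (T a) (c a) (d a)) := by
  unfold cands
  fun_prop

theorem poly_longer {o : α → Option (List ℕ)} {x : α → List ℕ} (ho : Poly o) (hx : Poly x) :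
    Poly (fun a => longer (o a) (x a)) := by
  unfold longer
  fun_prop

attribute [fun_prop] poly_cands poly_longer

end

end Pool.Agent.R534.TP
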