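import Pool.Agent.R534.TP.Poly

/-!
# Unidirectional maintenance scheduling: the dynamic program is correct
-/

namespace Pool.Agent.R534.TP

/-- `i` and `k` are consecutive elements of `K` -/
def Gap (K : Finset ℕ) (i k : ℕ) : Prop := i ∈ K ∧ k ∈ K ∧ i < k ∧ ∀ x ∈ K, x ≤ i ∨ k ≤ x

/-- `K` is a set of points between `c` and `d`, with `c` and `d`, such that all the jobs which have
to be done between `c` and `d` fit into gaps of `K` -/
def Feas (ts : List Q) (js : List Job) (c d : ℕ) (K : Finset ℕ) : Prop :=
  c ∈ K ∧ d ∈ K ∧ (∀ x ∈ K, c ≤ x ∧ x ≤ d) ∧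
    ∀ j ∈ js, aT ts j c = true → bT ts j d = true → ∃ i k, Gap K i k ∧ fitT ts j i k = true

/-- the properties of the tests which are used -/
structure Good (ts : List Q) (js : List Job) : Prop where
  hA : ∀ j ∈ js, ∀ i i', i' ≤ i → aT ts j i = true → aT ts j i' = true
  hB : ∀ j ∈ js, ∀ k k', k ≤ k' → bT ts j k = true → bT ts j k' = true
  hW : ∀ j ∈ js, ∀ j' ∈ js, wle j j' = true → ∀ i k, sT ts j' i k = true → sT ts j i k = true
  hM : ∀ p : Job → Prop, (∃ j ∈ js, p j) → ∃ j ∈ js, p j ∧ ∀ j' ∈ js, p j' → wle j' j = true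

theorem fitT_iff {ts : List Q} {j : Job} {i k : ℕ} :
    fitT ts j i k = true ↔ bT ts j i = false ∧ aT ts j k = false ∧ sT ts j i k = true := by
  unfold fitT
  simp [Bool.and_eq_true]

theorem inJ_iff {ts : List Q} {j : Job} {c d : ℕ} :
    inJ ts c d j = true ↔ aT ts j c = true ∧ bT ts j d = true := by
  unfold inJ
  rw [Bool.and_eq_true]

variable {ts : List Q} {js : List Job}

theorem Feas.union (hg : Good ts js) {c u v d : ℕ} {K₁ K₂ : Finset ℕ} (h₁ : Feas ts js c u K₁)
    (h₂ : Feas ts js v d K₂) (huv : u < v) {j : Job} (hj : j ∈ js)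
    (hmax : ∀ j' ∈ js, aT ts j' c = true → bT ts j' d = true → wle j' j = true)
    (hfit : fitT ts j u v = true) :
    Feas ts js c d (K₁ ∪ K₂) ∧ (K₁ ∪ K₂).card = K₁.card + K₂.card := by
  obtain ⟨h11, h12, h13, h14⟩ := h₁
  obtain ⟨h21, h22, h23, h24⟩ := h₂
  refine ⟨⟨Finset.mem_union_left _ h11, Finset.mem_union_right _ h22, ?_, ?_⟩, ?_⟩
  · intro x hx
    have h1 := (h13 u h12).1
    have h2 := (h23 v h21).2
    rcases Finset.mem_union.1 hx with h | h
    · have := h13 x h
      omega
    · have := h23 x h
      omega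
  · intro j' hj' ha hb
    by_cases hbu : bT ts j' u = true
    · obtain ⟨i, k, ⟨g1, g2, g3, g4⟩, hf⟩ := h14 j' hj' ha hbu
      refine ⟨i, k, ⟨Finset.mem_union_left _ g1, Finset.mem_union_left _ g2, g3, ?_⟩, hf⟩
      intro x hx
      rcases Finset.mem_union.1 hx with h | h
      · exact g4 x h
      · have h1 := (h23 x h).1
        have h2 := (h13 k g2).2
        right
        omega
    · by_cases hav : aT ts j' v = true
      · obtain ⟨i, k, ⟨g1, g2, g3, g4⟩, hf⟩ := h24 j' hj' hav hb
        refine ⟨i, k, ⟨Finset.mem_union_right _ g1, Finset.mem_union_right _ g2, g3, ?_⟩, hf⟩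
        intro x hx
        rcases Finset.mem_union.1 hx with h | h
        · have h1 := (h13 x h).2
          have h2 := (h23 i g1).1
          left
          omega
        · exact g4 x h
      · refine ⟨u, v, ⟨Finset.mem_union_left _ h12, Finset.mem_union_right _ h21, huv, ?_⟩, ?_⟩
        · intro x hx
          rcases Finset.mem_union.1 hx with h | h
          · exact Or.inl (h13 x h).2
          · exact Or.inr (h23 x h).1
        · rw [fitT_iff] at hfit ⊢
          exact ⟨by simpa using hbu, by simpa using hav,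
            hg.hW j' hj' j hj (hmax j' hj' ha hb) u v hfit.2.2⟩
  · rw [Finset.card_union_of_disjoint]
    rw [Finset.disjoint_left]
    intro x hx hx'
    have h1 := (h13 x hx).2
    have h2 := (h23 x hx').1
    omega

theorem Feas.split (hg : Good ts js) {c d : ℕ} {K : Finset ℕ} (h : Feas ts js c d K)
    {i k : ℕ} (hgap : Gap K i k) :
    Feas ts js c i (K.filter (fun x => x ≤ i)) ∧ Feas ts js k d (K.filter (fun x => k ≤ x)) ∧
      K.card = (K.filter (fun x => x ≤ i)).card + (K.filter (fun x => k ≤ x)).card := by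
  obtain ⟨h1, h2, h3, h4⟩ := h
  obtain ⟨g1, g2, g3, g4⟩ := hgap
  have hci := (h3 i g1).1
  have hkd := (h3 k g2).2
  refine ⟨⟨?_, ?_, ?_, ?_⟩, ⟨?_, ?_, ?_, ?_⟩, ?_⟩
  · rw [Finset.mem_filter]; exact ⟨h1, hci⟩
  · rw [Finset.mem_filter]; exact ⟨g1, le_rfl⟩
  · intro x hx
    rw [Finset.mem_filter] at hx
    exact ⟨(h3 x hx.1).1, hx.2⟩
  · intro j hj ha hb
    obtain ⟨i', k', ⟨q1, q2, q3, q4⟩, hf⟩ := h4 j hj ha (hg.hB j hj i d (h3 i g1).2 hb)
    have hi' : i' < i := by
      by_contra hcon
      have := hg.hB j hj i i' (by omega) hb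
      rw [fitT_iff] at hf
      rw [hf.1] at this
      cases this
    have hk' : k' ≤ i := by
      rcases q4 i g1 with h | h
      · omega
      · exact h
    refine ⟨i', k', ⟨?_, ?_, q3, ?_⟩, hf⟩
    · rw [Finset.mem_filter]; exact ⟨q1, hi'.le⟩
    · rw [Finset.mem_filter]; exact ⟨q2, hk'⟩
    · intro x hx
      rw [Finset.mem_filter] at hx
      exact q4 x hx.1
  · rw [Finset.mem_filter]; exact ⟨g2, le_rfl⟩
  · rw [Finset.mem_filter]; exact ⟨h2, hkd⟩
  · intro x hx
    rw [Finset.mem_filter] at hx
    exact ⟨hx.2, (h3 x hx.1).2⟩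
  · intro j hj ha hb
    obtain ⟨i', k', ⟨q1, q2, q3, q4⟩, hf⟩ := h4 j hj (hg.hA j hj k c (h3 k g2).1 ha) hb
    have hk' : k < k' := by
      by_contra hcon
      have := hg.hA j hj k k' (by omega) ha
      rw [fitT_iff] at hf
      rw [hf.2.1] at this
      cases this
    have hi' : k ≤ i' := by
      rcases q4 k g2 with h | h
      · exact h
      · omega
    refine ⟨i', k', ⟨?_, ?_, q3, ?_⟩, hf⟩
    · rw [Finset.mem_filter]; exact ⟨q1, hi'⟩
    · rw [Finset.mem_filter]; exact ⟨q2, hk'.le⟩
    · intro x hx
      rw [Finset.mem_filter] at hx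
      exact q4 x hx.1
  · have h5 : K = K.filter (fun x => x ≤ i) ∪ K.filter (fun x => k ≤ x) := by
      ext x
      simp only [Finset.mem_union, Finset.mem_filter]
      constructor
      · intro hx
        rcases g4 x hx with h | h
        · exact Or.inl ⟨hx, h⟩
        · exact Or.inr ⟨hx, h⟩
      · rintro (h | h) <;> exact h.1
    have h6 : Disjoint (K.filter (fun x => x ≤ i)) (K.filter (fun x => k ≤ x)) := by
      rw [Finset.disjoint_left]
      intro x hx hx'
      rw [Finset.mem_filter] at hx hx'
      omega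
    conv_lhs => rw [h5]
    exact Finset.card_union_of_disjoint h6

theorem mem_idx {x : ℕ} : x ∈ idx ts ↔ x ≤ ts.length + 1 := by
  unfold idx
  rw [List.mem_range]
  simp only [List.length_cons]
  omega

theorem nodup_idx : (idx ts).Nodup := List.nodup_range

/-- the entries of the table are feasible, and the entries of short intervals are optimal -/
def Inv (ts : List Q) (js : List Job) (k : ℕ) (T : List Entry) : Prop :=
  (∀ e ∈ T, e.2.Nodup ∧ Feas ts js e.1.1 e.1.2 e.2.toFinset) ∧
    ∀ c d K, d ≤ ts.length + 1 → d < c + k → Feas ts js c d K →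
      ∃ e ∈ T, e.1 = (c, d) ∧ K.card ≤ e.2.length

theorem cands_feas (hg : Good ts js) {k : ℕ} {T : List Entry} (hT : Inv ts js k T) {c d : ℕ}
    (hd : d ≤ ts.length + 1) {l : List ℕ} (hl : l ∈ cands ts js T c d) :
    l.Nodup ∧ Feas ts js c d l.toFinset := by
  refine ⟨nodup_idx.sublist (cands_sublist hl), ?_⟩
  unfold cands at hl
  rw [List.mem_append, List.mem_flatMap] at hl
  rcases hl with h | ⟨j, hj, h⟩
  · split_ifs at h with hc
    · rw [List.mem_singleton] at h
      rw [Bool.and_eq_true, decide_eq_true_eq, List.all_eq_true] at hc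
      obtain ⟨hcd, hall⟩ := hc
      subst h
      have hmem : ∀ x, x ∈ ((idx ts).filter (fun x => decide (c ≤ x) && decide (x ≤ d))).toFinset ↔
          c ≤ x ∧ x ≤ d := by
        intro x
        rw [List.mem_toFinset, List.mem_filter, mem_idx, Bool.and_eq_true, decide_eq_true_eq,
          decide_eq_true_eq]
        constructor
        · exact fun h => h.2
        · exact fun h => ⟨by omega, h⟩
      refine ⟨(hmem c).2 ⟨le_rfl, hcd⟩, (hmem d).2 ⟨hcd, le_rfl⟩, fun x hx => (hmem x).1 hx, ?_⟩
      intro j hj ha hb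
      have h1 := hall j hj
      rw [inJ_iff.2 ⟨ha, hb⟩] at h1
      simp at h1
    · simp at h
  · split_ifs at h with hc
    · rw [List.mem_flatMap] at h
      obtain ⟨e, he, h⟩ := h
      split_ifs at h with hec
      · rw [List.mem_flatMap] at h
        obtain ⟨e', he', h⟩ := h
        split_ifs at h with hed
        · rw [List.mem_singleton] at h
          rw [Bool.and_eq_true, List.all_eq_true] at hc
          obtain ⟨hjc, hall⟩ := hc
          rw [Bool.and_eq_true, Bool.and_eq_true, decide_eq_true_eq, decide_eq_true_eq] at hed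
          obtain ⟨hed1, hed2, hed3⟩ := hed
          have h1 := (hT.1 e he).2
          have h2 := (hT.1 e' he').2
          rw [hec] at h1
          rw [hed1] at h2
          have h3 := (Feas.union hg h1 h2 hed2 hj (fun j' hj' ha hb => by
            have h4 := hall j' hj'
            rw [inJ_iff.2 ⟨ha, hb⟩] at h4
            simpa using h4) hed3).1
          have h5 : l.toFinset = e.2.toFinset ∪ e'.2.toFinset := by
            rw [h]
            ext x
            rw [List.mem_toFinset, List.mem_filter, mem_idx, Bool.or_eq_true, decide_eq_true_eq,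
              decide_eq_true_eq, Finset.mem_union, List.mem_toFinset, List.mem_toFinset]
            constructor
            · exact fun h => h.2
            · intro h
              refine ⟨?_, h⟩
              have h6 := (h3.2.2.1 x (by
                rw [Finset.mem_union, List.mem_toFinset, List.mem_toFinset]; exact h)).2
              omega
          rw [h5]
          exact h3
        · simp at h
      · simp at h
    · simp at h

theorem cands_opt (hg : Good ts js) {k : ℕ} {T : List Entry} (hT : Inv ts js k T) {c d : ℕ}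
    (hd : d ≤ ts.length + 1) (hk : d < c + (k + 1)) {K : Finset ℕ} (hK : Feas ts js c d K) :
    ∃ l ∈ cands ts js T c d, K.card ≤ l.length := by
  by_cases hJ : ∃ j ∈ js, aT ts j c = true ∧ bT ts j d = true
  · obtain ⟨j, hj, ⟨hja, hjb⟩, hmax⟩ := hg.hM _ hJ
    obtain ⟨u, v, hgap, hfit⟩ := hK.2.2.2 j hj hja hjb
    obtain ⟨h1, h2, h3⟩ := hK.split hg hgap
    have huc := (hK.2.2.1 u hgap.1)
    have hvc := (hK.2.2.1 v hgap.2.1)
    have huv := hgap.2.2.1
    obtain ⟨e, he, he1, he2⟩ := hT.2 c u _ (by omega) (by omega) h1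
    obtain ⟨e', he', he1', he2'⟩ := hT.2 v d _ hd (by omega) h2
    have hf1 := (hT.1 e he)
    have hf2 := (hT.1 e' he')
    rw [he1] at hf1
    rw [he1'] at hf2
    simp only at hf1 hf2
    have h4 := Feas.union hg hf1.2 hf2.2 huv hj (fun j' hj' ha hb => hmax j' hj' ⟨ha, hb⟩) hfit
    refine ⟨(idx ts).filter (fun x => decide (x ∈ e.2) || decide (x ∈ e'.2)), ?_, ?_⟩
    · unfold cands
      rw [List.mem_append, List.mem_flatMap]
      right
      refine ⟨j, hj, ?_⟩
      rw [if_pos, List.mem_flatMap]
      · refine ⟨e, he, ?_⟩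
        rw [if_pos (by rw [he1]), List.mem_flatMap]
        refine ⟨e', he', ?_⟩
        rw [if_pos]
        · exact List.mem_singleton.2 rfl
        · rw [he1, he1', Bool.and_eq_true, Bool.and_eq_true, decide_eq_true_eq, decide_eq_true_eq]
          exact ⟨rfl, huv, hfit⟩
      · rw [Bool.and_eq_true, List.all_eq_true]
        refine ⟨inJ_iff.2 ⟨hja, hjb⟩, fun j' hj' => ?_⟩
        by_cases h : inJ ts c d j' = true
        · rw [h, hmax j' hj' (inJ_iff.1 h)]
          rfl
        · simp only [Bool.not_eq_true] at h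
          rw [h]
          rfl
    · have hn : ((idx ts).filter (fun x => decide (x ∈ e.2) || decide (x ∈ e'.2))).Nodup :=
        nodup_idx.filter _
      rw [← List.toFinset_card_of_nodup hn]
      have h5 : ((idx ts).filter (fun x => decide (x ∈ e.2) || decide (x ∈ e'.2))).toFinset =
          e.2.toFinset ∪ e'.2.toFinset := by
        ext x
        rw [List.mem_toFinset, List.mem_filter, mem_idx, Bool.or_eq_true, decide_eq_true_eq,
          decide_eq_true_eq, Finset.mem_union, List.mem_toFinset, List.mem_toFinset]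
        constructor
        · exact fun h => h.2
        · intro h
          refine ⟨?_, h⟩
          have h6 := (h4.1.2.2.1 x (by
            rw [Finset.mem_union, List.mem_toFinset, List.mem_toFinset]; exact h)).2
          omega
      rw [h5, h4.2, List.toFinset_card_of_nodup hf1.1, List.toFinset_card_of_nodup hf2.1, h3]
      omega
  · have hcd : c ≤ d := (hK.2.2.1 d hK.2.1).1
    refine ⟨(idx ts).filter (fun x => decide (c ≤ x) && decide (x ≤ d)), ?_, ?_⟩
    · unfold cands
      rw [List.mem_append]
      left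
      rw [if_pos]
      · exact List.mem_singleton.2 rfl
      · rw [Bool.and_eq_true, decide_eq_true_eq, List.all_eq_true]
        refine ⟨hcd, fun j hj => ?_⟩
        by_cases h : inJ ts c d j = true
        · exact absurd ⟨j, hj, inJ_iff.1 h⟩ hJ
        · simp only [Bool.not_eq_true] at h
          rw [h]
          rfl
    · have hn : ((idx ts).filter (fun x => decide (c ≤ x) && decide (x ≤ d))).Nodup :=
        nodup_idx.filter _
      rw [← List.toFinset_card_of_nodup hn]
      apply Finset.card_le_card
      intro x hx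
      rw [List.mem_toFinset, List.mem_filter, mem_idx, Bool.and_eq_true, decide_eq_true_eq,
        decide_eq_true_eq]
      have := hK.2.2.1 x hx
      exact ⟨by omega, this⟩

theorem inv_step (hg : Good ts js) {k : ℕ} {T : List Entry} (hT : Inv ts js k T) :
    Inv ts js (k + 1) (step ts js T) := by
  constructor
  · intro e he
    rw [mem_step] at he
    exact cands_feas hg hT (mem_idx.1 he.2.1) (best_mem he.2.2)
  · intro c d K hd hk hK
    obtain ⟨l, hl, hlen⟩ := cands_opt hg hT hd hk hK
    obtain ⟨y, hy, hy'⟩ := best_max hl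
    have hcd : c ≤ d := (hK.2.2.1 d hK.2.1).1
    refine ⟨((c, d), y), ?_, rfl, by simp only; omega⟩
    rw [mem_step]
    exact ⟨mem_idx.2 (by simp only; omega), mem_idx.2 hd, hy⟩

theorem inv_table (hg : Good ts js) : Inv ts js (ts.length + 2) (table ts js) := by
  have h1 : (idx ts).length = ts.length + 2 := by
    unfold idx
    simp
  unfold table
  rw [h1]
  have key : ∀ k, Inv ts js k ((step ts js)^[k] []) := by
    intro k
    induction k with
    | zero =>
      constructor
      · intro e he
        simp at he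
      · intro c d K hd hk hK
        have hcd : c ≤ d := (hK.2.2.1 d hK.2.1).1
        omega
    | succ k ih =>
      rw [Function.iterate_succ_apply']
      exact inv_step hg ih
  exact key _

theorem keep_spec (hg : Good ts js) {K : Finset ℕ} (hK : Feas ts js 0 (ts.length + 1) K) :
    (keep ts js).Nodup ∧ Feas ts js 0 (ts.length + 1) (keep ts js).toFinset ∧
      K.card ≤ (keep ts js).length := by
  obtain ⟨hs, ho⟩ := inv_table hg
  obtain ⟨e, he, he1, he2⟩ := ho 0 (ts.length + 1) K le_rfl (by omega) hK
  have hmem : e.2 ∈ ((table ts js).filter (fun e => decide (e.1 = (0, ts.length + 1)))).map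
      (fun e => e.2) := by
    rw [List.mem_map]
    exact ⟨e, List.mem_filter.2 ⟨he, by rw [decide_eq_true_eq]; exact he1⟩, rfl⟩
  obtain ⟨y, hy, hy'⟩ := best_max hmem
  have hk : keep ts js = y := by
    unfold keep
    rw [hy]
    rfl
  have hy2 := best_mem hy
  rw [List.mem_map] at hy2
  obtain ⟨e', he', rfl⟩ := hy2
  rw [List.mem_filter, decide_eq_true_eq] at he'
  have h1 := hs e' he'.1
  rw [he'.2] at h1
  rw [hk]
  exact ⟨h1.1, h1.2, by omega⟩

end Pool.Agent.R534.TP
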