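import Pool.Agent.R534.TP.Corr

/-!
# Unidirectional maintenance scheduling: the meaning of the tests
-/

namespace Pool.Agent.R534.TP

/-- the value of a pair of natural numbers -/
noncomputable def val (x : Q) : ℝ := (x.1 : ℝ) / (x.2 : ℝ)

theorem val_nonneg (x : Q) : 0 ≤ val x := div_nonneg (Nat.cast_nonneg _) (Nat.cast_nonneg _)

theorem val_radd {x y : Q} (hx : 0 < x.2) (hy : 0 < y.2) : val (radd x y) = val x + val y := by
  have h1 : (x.2 : ℝ) ≠ 0 := by exact_mod_cast hx.ne'
  have h2 : (y.2 : ℝ) ≠ 0 := by exact_mod_cast hy.ne'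
  unfold val radd
  push_cast
  field_simp

theorem pos_radd {x y : Q} (hx : 0 < x.2) (hy : 0 < y.2) : 0 < (radd x y).2 := Nat.mul_pos hx hy

theorem rle_iff {x y : Q} (hx : 0 < x.2) (hy : 0 < y.2) : rle x y = true ↔ val x ≤ val y := by
  have h1 : (0 : ℝ) < x.2 := by exact_mod_cast hx
  have h2 : (0 : ℝ) < y.2 := by exact_mod_cast hy
  unfold rle val
  rw [decide_eq_true_eq, div_le_div_iff₀ h1 h2]
  exact_mod_cast Iff.rfl

theorem rlt_iff {x y : Q} (hx : 0 < x.2) (hy : 0 < y.2) : rlt x y = true ↔ val x < val y := by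
  have h1 : (0 : ℝ) < x.2 := by exact_mod_cast hx
  have h2 : (0 : ℝ) < y.2 := by exact_mod_cast hy
  unfold rlt val
  rw [decide_eq_true_eq, div_lt_div_iff₀ h1 h2]
  exact_mod_cast Iff.rfl

theorem val_rsub {x y : Q} (hx : 0 < x.2) (hy : 0 < y.2) (h : val y ≤ val x) :
    val (rsub x y) = val x - val y := by
  have h1 : (0 : ℝ) < x.2 := by exact_mod_cast hx
  have h2 : (0 : ℝ) < y.2 := by exact_mod_cast hy
  have h3 : y.1 * x.2 ≤ x.1 * y.2 := by
    have := (rle_iff hy hx).2 h
    unfold rle at this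
    exact of_decide_eq_true this
  unfold val rsub
  simp only
  rw [Nat.cast_sub h3]
  push_cast
  field_simp

theorem pos_rsub {x y : Q} (hx : 0 < x.2) (hy : 0 < y.2) : 0 < (rsub x y).2 := Nat.mul_pos hx hy

theorem val_rmul (x y : Q) : val (rmul x y) = val x * val y := by
  unfold val rmul
  push_cast
  rw [div_mul_div_comm]

theorem val_rdiv (x y : Q) : val (rdiv x y) = val x / val y := by
  unfold val rdiv
  push_cast
  rw [div_div_div_eq]

theorem val_rhalf (x : Q) : val (rhalf x) = val x / 2 := by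
  unfold val rhalf
  push_cast
  rw [div_div, mul_comm]

theorem rmin_cases (x y : Q) (hx : 0 < x.2) (hy : 0 < y.2) :
    0 < (rmin x y).2 ∧ val (rmin x y) = min (val x) (val y) := by
  unfold rmin
  by_cases h : rle x y = true
  · rw [if_pos h]
    exact ⟨hx, (min_eq_left ((rle_iff hx hy).1 h)).symm⟩
  · rw [if_neg h]
    have h' : ¬ val x ≤ val y := fun h' => h ((rle_iff hx hy).2 h')
    exact ⟨hy, (min_eq_right (not_le.1 h').le).symm⟩

/-- valid preprocessed data -/
structure PV (ts : List Q) (js : List Job) : Prop where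
  tpos : ∀ t ∈ ts, 0 < t.2
  sorted : ts.Pairwise (fun t t' => val t < val t')
  jpos : ∀ j ∈ js, 0 < j.1.2 ∧ 0 < j.2.1.2 ∧ 0 < j.2.2.1.2 ∧ 0 < j.2.2.2.1.2 ∧ 0 < j.2.2.2.2.2
  window : ∀ j ∈ js, val j.1 + val j.2.2.1 ≤ val j.2.1
  fe : ∀ j ∈ js, val j.2.2.2.1 ≤ val j.2.2.2.2

/-- the time of the point `x` -/
noncomputable def tm (ts : List Q) (x : ℕ) : ℝ := val (ts.getD (x - 1) (0, 1))

variable {ts : List Q} {js : List Job}

theorem get_some {x : ℕ} (h1 : 1 ≤ x) (h2 : x ≤ ts.length) :
    ∃ t, ts[x - 1]? = some t ∧ t ∈ ts ∧ val t = tm ts x := by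
  have h3 : x - 1 < ts.length := by omega
  refine ⟨ts[x - 1], List.getElem?_eq_getElem h3, List.getElem_mem h3, ?_⟩
  unfold tm
  rw [List.getD_eq_getElem _ _ h3]

theorem get_none {x : ℕ} (h : ts.length < x) : ts[x - 1]? = none := by
  rw [List.getElem?_eq_none_iff]
  omega

theorem tm_lt (h : PV ts js) {x y : ℕ} (h1 : 1 ≤ x) (h2 : x < y) (h3 : y ≤ ts.length) :
    tm ts x < tm ts y := by
  have h4 : x - 1 < ts.length := by omega
  have h5 : y - 1 < ts.length := by omega
  unfold tm
  rw [List.getD_eq_getElem _ _ h4, List.getD_eq_getElem _ _ h5]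
  exact List.pairwise_iff_getElem.1 h.sorted _ _ h4 h5 (by omega)

theorem tm_le (h : PV ts js) {x y : ℕ} (h1 : 1 ≤ x) (h2 : x ≤ y) (h3 : y ≤ ts.length) :
    tm ts x ≤ tm ts y := by
  rcases h2.lt_or_eq with h | h
  · exact (tm_lt ‹_› h1 h h3).le
  · rw [h]

theorem aT_iff (h : PV ts js) {j : Job} (hj : j ∈ js) {x : ℕ} (h1 : 1 ≤ x) (h2 : x ≤ ts.length) :
    aT ts j x = true ↔ tm ts x + val j.2.2.2.1 ≤ val j.1 + val j.2.2.1 := by
  obtain ⟨t, ht1, ht2, ht3⟩ := get_some h1 h2
  obtain ⟨p1, p2, p3, p4, p5⟩ := h.jpos j hj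
  have pt := h.tpos t ht2
  unfold aT
  rw [if_neg (by omega), ht1]
  simp only [Option.elim]
  rw [rle_iff (pos_radd pt p4) (pos_radd p1 p3), val_radd pt p4, val_radd p1 p3, ht3]

theorem aT_zero {j : Job} : aT ts j 0 = true := by
  unfold aT
  rw [if_pos rfl]

theorem aT_top {j : Job} {x : ℕ} (h : ts.length < x) : aT ts j x = false := by
  unfold aT
  rw [if_neg (by omega), get_none h]
  rfl

theorem bT_iff (h : PV ts js) {j : Job} (hj : j ∈ js) {x : ℕ} (h1 : 1 ≤ x) (h2 : x ≤ ts.length) :
    bT ts j x = true ↔ val j.2.1 ≤ tm ts x + val j.2.2.1 + val j.2.2.2.2 := by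
  obtain ⟨t, ht1, ht2, ht3⟩ := get_some h1 h2
  obtain ⟨p1, p2, p3, p4, p5⟩ := h.jpos j hj
  have pt := h.tpos t ht2
  unfold bT
  rw [if_neg (by omega), ht1]
  simp only [Option.elim]
  rw [rle_iff p2 (pos_radd (pos_radd pt p3) p5), val_radd (pos_radd pt p3) p5, val_radd pt p3, ht3]

theorem bT_zero {j : Job} : bT ts j 0 = false := by
  unfold bT
  rw [if_pos rfl]

theorem bT_top {j : Job} {x : ℕ} (h : ts.length < x) : bT ts j x = true := by
  unfold bT
  rw [if_neg (by omega), get_none h]
  rfl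

theorem sT_iff (h : PV ts js) {j : Job} (hj : j ∈ js) {x y : ℕ} (h1 : 1 ≤ x) (h2 : x ≤ ts.length)
    (h3 : 1 ≤ y) (h4 : y ≤ ts.length) :
    sT ts j x y = true ↔ tm ts x + val j.2.2.1 + val j.2.2.2.2 < tm ts y + val j.2.2.2.1 := by
  obtain ⟨t, ht1, ht2, ht3⟩ := get_some h1 h2
  obtain ⟨t', ht1', ht2', ht3'⟩ := get_some h3 h4
  obtain ⟨p1, p2, p3, p4, p5⟩ := h.jpos j hj
  have pt := h.tpos t ht2
  have pt' := h.tpos t' ht2'
  unfold sT
  rw [if_neg (by omega), ht1, ht1']
  simp only [Option.elim]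
  rw [rlt_iff (pos_radd (pos_radd pt p3) p5) (pos_radd pt' p4), val_radd (pos_radd pt p3) p5,
    val_radd pt p3, val_radd pt' p4, ht3, ht3']

theorem sT_zero {j : Job} {y : ℕ} : sT ts j 0 y = true := by
  unfold sT
  rw [if_pos rfl]

theorem sT_top {j : Job} {x y : ℕ} (h : ts.length < y) : sT ts j x y = true := by
  unfold sT
  split_ifs
  · rfl
  · rw [get_none h]
    rfl

theorem good (h : PV ts js) : Good ts js := by
  refine ⟨?_, ?_, ?_, ?_⟩
  · intro j hj i i' hi ha
    rcases Nat.eq_zero_or_pos i' with h0 | h0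
    · rw [h0]; exact aT_zero
    · have hi2 : i ≤ ts.length := by
        by_contra hcon
        rw [aT_top (by omega)] at ha
        cases ha
      rw [aT_iff h hj (by omega) hi2] at ha
      rw [aT_iff h hj h0 (by omega)]
      have := tm_le h h0 hi hi2
      linarith
  · intro j hj k k' hk hb
    rcases Nat.lt_or_ge ts.length k' with h0 | h0
    · exact bT_top h0
    · have hk0 : 1 ≤ k := by
        rcases Nat.eq_zero_or_pos k with h1 | h1
        · rw [h1, bT_zero] at hb
          cases hb
        · exact h1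
      rw [bT_iff h hj hk0 (by omega)] at hb
      rw [bT_iff h hj (by omega) h0]
      have := tm_le h hk0 hk h0
      linarith
  · intro j hj j' hj' hw i k hs
    rcases Nat.eq_zero_or_pos i with h1 | h1
    · rw [h1]; exact sT_zero
    · rcases Nat.lt_or_ge ts.length k with h2 | h2
      · exact sT_top h2
      · rcases Nat.lt_or_ge ts.length i with h3 | h3
        · unfold sT
          rw [if_neg (by omega), get_none h3]
          cases ts[k - 1]? <;> rfl
        · rcases Nat.eq_zero_or_pos k with h4 | h4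
          · have e1 : ∀ j : Job, sT ts j i k = sT ts j i 1 := by
              intro j
              unfold sT
              rw [h4]
            rw [e1] at hs ⊢
            obtain ⟨p1, p2, p3, p4, p5⟩ := h.jpos j hj
            obtain ⟨p1', p2', p3', p4', p5'⟩ := h.jpos j' hj'
            unfold wle at hw
            rw [rle_iff (pos_radd (pos_radd p3 p5) p4') (pos_radd (pos_radd p3' p5') p4),
              val_radd (pos_radd p3 p5) p4', val_radd p3 p5, val_radd (pos_radd p3' p5') p4,
              val_radd p3' p5'] at hw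
            rw [sT_iff h hj' h1 h3 le_rfl (by omega)] at hs
            rw [sT_iff h hj h1 h3 le_rfl (by omega)]
            linarith
          · obtain ⟨p1, p2, p3, p4, p5⟩ := h.jpos j hj
            obtain ⟨p1', p2', p3', p4', p5'⟩ := h.jpos j' hj'
            unfold wle at hw
            rw [rle_iff (pos_radd (pos_radd p3 p5) p4') (pos_radd (pos_radd p3' p5') p4),
              val_radd (pos_radd p3 p5) p4', val_radd p3 p5, val_radd (pos_radd p3' p5') p4,
              val_radd p3' p5'] at hw
            rw [sT_iff h hj' h1 h3 h4 h2] at hs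
            rw [sT_iff h hj h1 h3 h4 h2]
            linarith
  · intro p hp
    classical
    obtain ⟨j₀, hj₀, hpj₀⟩ := hp
    obtain ⟨j, hj, hmax⟩ := Finset.exists_max_image (js.toFinset.filter p)
      (fun j : Job => val j.2.2.1 + val j.2.2.2.2 - val j.2.2.2.1)
      ⟨j₀, Finset.mem_filter.2 ⟨List.mem_toFinset.2 hj₀, hpj₀⟩⟩
    rw [Finset.mem_filter, List.mem_toFinset] at hj
    refine ⟨j, hj.1, hj.2, ?_⟩
    intro j' hj' hpj'
    have h1 := hmax j' (Finset.mem_filter.2 ⟨List.mem_toFinset.2 hj', hpj'⟩)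
    obtain ⟨p1, p2, p3, p4, p5⟩ := h.jpos j hj.1
    obtain ⟨p1', p2', p3', p4', p5'⟩ := h.jpos j' hj'
    unfold wle
    rw [rle_iff (pos_radd (pos_radd p3' p5') p4) (pos_radd (pos_radd p3 p5) p4'),
      val_radd (pos_radd p3' p5') p4, val_radd p3' p5', val_radd (pos_radd p3 p5) p4',
      val_radd p3 p5]
    linarith

/-- the job `j` with start time `σ` cancels the path with start time `t` -/
def Hit (t : ℝ) (j : Job) (σ : ℝ) : Prop :=
  σ ≤ t + val j.2.2.2.2 ∧ t + val j.2.2.2.1 ≤ σ + val j.2.2.1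

open Classical in
/-- the points which are kept by a schedule -/
noncomputable def kept (ts : List Q) (js : List Job) (s : ℕ → ℝ) : Finset ℕ :=
  (Finset.range (ts.length + 2)).filter (fun x => x = 0 ∨ x = ts.length + 1 ∨
    ∀ i j, js[i]? = some j → ¬ Hit (tm ts x) j (s i))

theorem kept_feas (h : PV ts js) {s : ℕ → ℝ}
    (hs : ∀ i j, js[i]? = some j → val j.1 ≤ s i ∧ s i + val j.2.2.1 ≤ val j.2.1) :
    Feas ts js 0 (ts.length + 1) (kept ts js s) := by
  classical
  have hmem : ∀ x, x ∈ kept ts js s ↔ x < ts.length + 2 ∧ (x = 0 ∨ x = ts.length + 1 ∨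
      ∀ i j, js[i]? = some j → ¬ Hit (tm ts x) j (s i)) := by
    intro x
    unfold kept
    rw [Finset.mem_filter, Finset.mem_range]
  refine ⟨(hmem _).2 ⟨by omega, Or.inl rfl⟩, (hmem _).2 ⟨by omega, Or.inr (Or.inl rfl)⟩, ?_, ?_⟩
  · intro x hx
    have := ((hmem x).1 hx).1
    omega
  · intro j hj _ _
    obtain ⟨i, hi⟩ := List.mem_iff_getElem?.1 hj
    obtain ⟨hs1, hs2⟩ := hs i j hi
    have hp0 := val_nonneg j.2.2.1
    have hfe := h.fe j hj
    -- the left and the right points
    let Lf := (kept ts js s).filter (fun x => x = 0 ∨ (x ≤ ts.length ∧ tm ts x + val j.2.2.2.2 < s i))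
    let Rt := (kept ts js s).filter (fun x => x = ts.length + 1 ∨
      (1 ≤ x ∧ s i + val j.2.2.1 < tm ts x + val j.2.2.2.1))
    have hL : Lf.Nonempty := ⟨0, Finset.mem_filter.2 ⟨(hmem _).2 ⟨by omega, Or.inl rfl⟩, Or.inl rfl⟩⟩
    have hR : Rt.Nonempty := ⟨ts.length + 1, Finset.mem_filter.2
      ⟨(hmem _).2 ⟨by omega, Or.inr (Or.inl rfl)⟩, Or.inl rfl⟩⟩
    have hu := Finset.max'_mem Lf hL
    have hv := Finset.min'_mem Rt hR
    set u := Lf.max' hL with hu'
    set v := Rt.min' hR with hv'
    have hu1 := (Finset.mem_filter.1 hu)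
    have hv1 := (Finset.mem_filter.1 hv)
    have hvlt := ((hmem v).1 hv1.1).1
    have huv : u < v := by
      rcases hu1.2 with h0 | ⟨h0, h0'⟩
      · rw [h0]
        rcases hv1.2 with h1 | ⟨h1, _⟩ <;> omega
      · rcases hv1.2 with h1 | ⟨h1, h1'⟩
        · omega
        · by_contra hcon
          rcases Nat.eq_zero_or_pos u with h2 | h2
          · omega
          · have := tm_le h h1 (show v ≤ u by omega) h0
            linarith
    refine ⟨u, v, ⟨hu1.1, hv1.1, huv, ?_⟩, ?_⟩
    · intro x hx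
      have hx1 := (hmem x).1 hx
      by_cases hx0 : x = 0
      · left; omega
      · by_cases hxm : x = ts.length + 1
        · right; omega
        · rcases hx1.2 with h1 | h1 | h1
          · exact absurd h1 hx0
          · exact absurd h1 hxm
          · have h2 := h1 i j hi
            unfold Hit at h2
            by_cases h3 : s i ≤ tm ts x + val j.2.2.2.2
            · right
              apply Finset.min'_le
              rw [Finset.mem_filter]
              refine ⟨hx, Or.inr ⟨by omega, ?_⟩⟩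
              by_contra h4
              exact h2 ⟨h3, not_lt.1 h4⟩
            · left
              apply Finset.le_max'
              rw [Finset.mem_filter]
              exact ⟨hx, Or.inr ⟨by omega, not_le.1 h3⟩⟩
    · rw [fitT_iff]
      refine ⟨?_, ?_, ?_⟩
      · rcases Nat.eq_zero_or_pos u with h0 | h0
        · rw [h0]; exact bT_zero
        · rcases hu1.2 with h1 | ⟨h1, h1'⟩
          · omega
          · rw [Bool.eq_false_iff, Ne, bT_iff h hj h0 h1]
            intro h2
            linarith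
      · rcases hv1.2 with h1 | ⟨h1, h1'⟩
        · rw [h1]; exact aT_top (by omega)
        · rcases Nat.lt_or_ge ts.length v with h2 | h2
          · exact aT_top h2
          · rw [Bool.eq_false_iff, Ne, aT_iff h hj h1 h2]
            intro h3
            linarith
      · rcases Nat.eq_zero_or_pos u with h0 | h0
        · rw [h0]; exact sT_zero
        · rcases hu1.2 with h1 | ⟨h1, h1'⟩
          · omega
          · rcases hv1.2 with h2 | ⟨h2, h2'⟩
            · exact sT_top (by omega)
            · rcases Nat.lt_or_ge ts.length v with h3 | h3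
              · exact sT_top h3
              · rw [sT_iff h hj h0 h1 h2 h3]
                linarith

theorem mem_gaps {K : List ℕ} {j : Job} {g : ℕ × ℕ} :
    g ∈ gaps ts K j ↔ Gap K.toFinset g.1 g.2 ∧ fitT ts j g.1 g.2 = true := by
  unfold gaps Gap
  rw [List.mem_flatMap]
  simp only [List.mem_toFinset]
  constructor
  · rintro ⟨i, hi, h⟩
    rw [List.mem_flatMap] at h
    obtain ⟨k, hk, h⟩ := h
    split_ifs at h with hc
    · rw [List.mem_singleton] at h
      subst h
      rw [Bool.and_eq_true, Bool.and_eq_true, decide_eq_true_eq, List.all_eq_true] at hc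
      refine ⟨⟨hi, hk, hc.1, fun x hx => ?_⟩, hc.2.2⟩
      have := hc.2.1 x hx
      rw [Bool.or_eq_true, decide_eq_true_eq, decide_eq_true_eq] at this
      exact this
    · simp at h
  · rintro ⟨⟨h1, h2, h3, h4⟩, h5⟩
    refine ⟨g.1, h1, ?_⟩
    rw [List.mem_flatMap]
    refine ⟨g.2, h2, ?_⟩
    rw [if_pos]
    · exact List.mem_singleton.2 rfl
    · rw [Bool.and_eq_true, Bool.and_eq_true, decide_eq_true_eq, List.all_eq_true]
      refine ⟨h3, fun x hx => ?_, h5⟩
      rw [Bool.or_eq_true, decide_eq_true_eq, decide_eq_true_eq]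
      exact h4 x hx

theorem startT_spec (h : PV ts js) {j : Job} (hj : j ∈ js) {K : Finset ℕ}
    (hK : ∀ x ∈ K, x ≤ ts.length + 1) {u v : ℕ} (hgap : Gap K u v)
    (hfit : fitT ts j u v = true) :
    0 < (startT ts j (u, v)).2 ∧ val j.1 ≤ val (startT ts j (u, v)) ∧
      val (startT ts j (u, v)) + val j.2.2.1 ≤ val j.2.1 ∧
      ∀ x ∈ K, 1 ≤ x → x ≤ ts.length → ¬ Hit (tm ts x) j (val (startT ts j (u, v))) := by
  obtain ⟨g1, g2, g3, g4⟩ := hgap
  obtain ⟨f1, f2, f3⟩ := fitT_iff.1 hfit
  obtain ⟨p1, p2, p3, p4, p5⟩ := h.jpos j hj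
  have hw := h.window j hj
  have hp0 := val_nonneg j.2.2.1
  have hvm := hK v g2
  -- the points to the right are not cancelled when the job starts at the release time
  have hright : ∀ x, v ≤ x → x ≤ ts.length →
      val j.1 + val j.2.2.1 < tm ts x + val j.2.2.2.1 := by
    intro x hx hx'
    have h1 : ¬ (aT ts j v = true) := by rw [f2]; simp
    rw [aT_iff h hj (by omega) (by omega)] at h1
    have := tm_le h (show 1 ≤ v by omega) hx hx'
    linarith
  unfold startT
  simp only
  by_cases hu0 : u = 0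
  · rw [if_pos hu0]
    refine ⟨p1, le_rfl, hw, ?_⟩
    intro x hx hx1 hx2 hhit
    unfold Hit at hhit
    rcases g4 x hx with h1 | h1
    · omega
    · have := hright x h1 hx2
      linarith [hhit.2]
  · rw [if_neg hu0]
    obtain ⟨ti, ht1, ht2, ht3⟩ := get_some (show 1 ≤ u by omega) (show u ≤ ts.length by omega)
    have pt := h.tpos ti ht2
    rw [ht1, Option.elim_some]
    by_cases hr : rlt (radd ti j.2.2.2.2) j.1 = true
    · rw [if_pos hr]
      rw [rlt_iff (pos_radd pt p5) p1, val_radd pt p5, ht3] at hr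
      refine ⟨p1, le_rfl, hw, ?_⟩
      intro x hx hx1 hx2 hhit
      unfold Hit at hhit
      rcases g4 x hx with h1 | h1
      · have := tm_le h hx1 h1 (by omega)
        linarith [hhit.1]
      · have := hright x h1 hx2
        linarith [hhit.2]
    · rw [if_neg hr]
      rw [rlt_iff (pos_radd pt p5) p1, val_radd pt p5, ht3] at hr
      have hb : ¬ (bT ts j u = true) := by rw [f1]; simp
      rw [bT_iff h hj (by omega) (by omega)] at hb
      have hdp : val (rsub j.2.1 j.2.2.1) = val j.2.1 - val j.2.2.1 :=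
        val_rsub p2 p3 (by linarith [val_nonneg j.1])
      have key : ∃ hi : Q, 0 < hi.2 ∧ ((ts[v - 1]?).elim (rsub j.2.1 j.2.2.1)
          (fun tk => rmin (rsub j.2.1 j.2.2.1) (rsub (radd tk j.2.2.2.1) j.2.2.1))) = hi ∧
          tm ts u + val j.2.2.2.2 < val hi ∧ val hi ≤ val j.2.1 - val j.2.2.1 ∧
          (v ≤ ts.length → val hi + val j.2.2.1 ≤ tm ts v + val j.2.2.2.1) := by
        rcases Nat.lt_or_ge ts.length v with hv | hv
        · rw [get_none hv]
          refine ⟨_, pos_rsub p2 p3, rfl, ?_, ?_, ?_⟩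
          · rw [hdp]; linarith
          · rw [hdp]
          · intro h'; omega
        · obtain ⟨tk, hk1, hk2, hk3⟩ := get_some (show 1 ≤ v by omega) hv
          have pk := h.tpos tk hk2
          rw [sT_iff h hj (by omega) (by omega) (by omega) hv] at f3
          have hs1 : val (rsub (radd tk j.2.2.2.1) j.2.2.1) =
              tm ts v + val j.2.2.2.1 - val j.2.2.1 := by
            rw [val_rsub (pos_radd pk p4) p3, val_radd pk p4, hk3]
            rw [val_radd pk p4, hk3]
            have h1 : 0 ≤ tm ts u := val_nonneg _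
            have h2 := val_nonneg j.2.2.2.2
            linarith
          obtain ⟨hm1, hm2⟩ := rmin_cases (rsub j.2.1 j.2.2.1) (rsub (radd tk j.2.2.2.1) j.2.2.1)
            (pos_rsub p2 p3) (pos_rsub (pos_radd pk p4) p3)
          rw [hk1]
          refine ⟨_, hm1, rfl, ?_, ?_, ?_⟩
          · rw [hm2, hdp, hs1]
            apply lt_min <;> linarith
          · rw [hm2, hdp]
            exact min_le_left _ _
          · intro _
            rw [hm2, hs1]
            have := min_le_right (val (rsub j.2.1 j.2.2.1)) (tm ts v + val j.2.2.2.1 - val j.2.2.1)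
            linarith
      obtain ⟨hi, hh1, hh2, hh3, hh4, hh5⟩ := key
      rw [hh2]
      have hval : val (rhalf (radd (radd ti j.2.2.2.2) hi)) =
          (tm ts u + val j.2.2.2.2 + val hi) / 2 := by
        rw [val_rhalf, val_radd (pos_radd pt p5) hh1, val_radd pt p5, ht3]
      rw [hval]
      refine ⟨?_, ?_, ?_, ?_⟩
      · have := pos_radd (pos_radd pt p5) hh1
        unfold rhalf
        simp only
        omega
      · linarith
      · linarith
      · intro x hx hx1 hx2 hhit
        unfold Hit at hhit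
        rcases g4 x hx with h1 | h1
        · have := tm_le h hx1 h1 (by omega)
          linarith [hhit.1]
        · have h2 := tm_le h (show 1 ≤ v by omega) h1 hx2
          have h3 := hh5 (by omega)
          linarith [hhit.2]

theorem start_spec (h : PV ts js) {j : Job} (hj : j ∈ js) {K : List ℕ}
    (hK : Feas ts js 0 (ts.length + 1) K.toFinset) :
    0 < (start ts K j).2 ∧ val j.1 ≤ val (start ts K j) ∧
      val (start ts K j) + val j.2.2.1 ≤ val j.2.1 ∧
      ∀ x ∈ K, 1 ≤ x → x ≤ ts.length → ¬ Hit (tm ts x) j (val (start ts K j)) := by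
  obtain ⟨u, v, hgap, hfit⟩ := hK.2.2.2 j hj aT_zero (bT_top (by omega))
  have hne : (u, v) ∈ gaps ts K j := mem_gaps.2 ⟨hgap, hfit⟩
  obtain ⟨g, hg⟩ : ∃ g, (gaps ts K j).head? = some g := by
    cases hq : gaps ts K j with
    | nil => rw [hq] at hne; simp at hne
    | cons a l => exact ⟨a, rfl⟩
  have hg' : g ∈ gaps ts K j := List.mem_of_head? hg
  rw [mem_gaps] at hg'
  have h1 := startT_spec h hj (fun x hx => (hK.2.2.1 x hx).2) hg'.1 hg'.2
  have h2 : start ts K j = startT ts j (g.1, g.2) := by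
    unfold start
    rw [hg]
    rfl
  rw [h2]
  exact ⟨h1.1, h1.2.1, h1.2.2.1, fun x hx => h1.2.2.2 x (List.mem_toFinset.2 hx)⟩

end Pool.Agent.R534.TP
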