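import Pool.Agent.R534.TP.Alg

/-!
# Unidirectional maintenance scheduling: the algorithm runs in polynomial time
-/

namespace Pool.Agent.R534.TP

open Pool.Agent.NPC Polynomial

/-! ### The longest member of a list -/

theorem foldl_longer (l : List (List ℕ)) : ∀ (o : Option (List ℕ)),
    ∃ r : Option (List ℕ), l.foldl longer o = r ∧
      (∀ y, r = some y → o = some y ∨ y ∈ l) ∧
      (∀ x ∈ l, ∃ y, r = some y ∧ x.length ≤ y.length) ∧
      (∀ x, o = some x → ∃ y, r = some y ∧ x.length ≤ y.length) := by
  induction l with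
  | nil =>
    intro o
    refine ⟨o, rfl, fun y hy => Or.inl hy, by simp, fun x hx => ⟨x, hx, le_rfl⟩⟩
  | cons x l ih =>
    intro o
    obtain ⟨r, hr, h1, h2, h3⟩ := ih (longer o x)
    have hlx : ∃ z, longer o x = some z ∧ x.length ≤ z.length ∧ (z = x ∨ o = some z) ∧
        (∀ y, o = some y → y.length ≤ z.length) := by
      unfold longer
      cases o with
      | none => exact ⟨x, rfl, le_rfl, Or.inl rfl, by simp⟩
      | some y =>
        by_cases h : y.length < x.length
        · refine ⟨x, by simp [h], le_rfl, Or.inl rfl, ?_⟩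
          intro z hz
          cases hz
          exact h.le
        · refine ⟨y, by simp [h], by omega, Or.inr rfl, ?_⟩
          intro z hz
          cases hz
          exact le_rfl
    obtain ⟨z, hz1, hz2, hz3, hz4⟩ := hlx
    refine ⟨r, by rw [List.foldl_cons, hr], ?_, ?_, ?_⟩
    · intro y hy
      rcases h1 y hy with h | h
      · rw [hz1] at h
        cases h
        rcases hz3 with h' | h'
        · right; rw [h']; exact List.mem_cons_self
        · left; exact h'
      · right; exact List.mem_cons_of_mem _ h
    · intro w hw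
      rcases List.mem_cons.1 hw with h | h
      · obtain ⟨y, hy1, hy2⟩ := h3 z hz1
        exact ⟨y, hy1, by rw [h]; omega⟩
      · exact h2 w h
    · intro w hw
      obtain ⟨y, hy1, hy2⟩ := h3 z hz1
      have := hz4 w hw
      exact ⟨y, hy1, by omega⟩

theorem best_mem {l : List (List ℕ)} {y : List ℕ} (h : best l = some y) : y ∈ l := by
  obtain ⟨r, hr, h1, _, _⟩ := foldl_longer l none
  unfold best at h
  rw [hr] at h
  rcases h1 y h with h' | h'
  · cases h'
  · exact h'

theorem best_max {l : List (List ℕ)} {x : List ℕ} (h : x ∈ l) :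
    ∃ y, best l = some y ∧ x.length ≤ y.length := by
  obtain ⟨r, hr, _, h2, _⟩ := foldl_longer l none
  obtain ⟨y, hy1, hy2⟩ := h2 x h
  exact ⟨y, by unfold best; rw [hr, hy1], hy2⟩

section

variable {α : Type} [TEnc α]

theorem poly_best {l : α → List (List ℕ)} (hl : Poly l) : Poly (fun a => best (l a)) := by
  unfold best
  obtain ⟨r, hr⟩ := hl.sz_le
  refine NPC.Poly.foldl (l := l) (s := fun _ => none) (F := fun _ o x => longer o x) hl
    (NPC.Poly.const _) (by fun_prop) (r + 3) ?_
  intro a k hk
  obtain ⟨o, ho, h1, _, _⟩ := foldl_longer ((l a).take k) none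
  rw [ho, eval_add, eval_ofNat]
  have h2 := hr a
  cases o with
  | none =>
    rw [sz_none]
    omega
  | some y =>
    rcases h1 y rfl with h | h
    · cases h
    · have h3 := sz_le_of_mem (List.mem_of_mem_take h)
      rw [sz_some]
      omega

attribute [fun_prop] poly_best

theorem poly_step {ts : α → List Q} {js : α → List Job} {T : α → List Entry}
    (hts : Poly ts) (hjs : Poly js) (hT : Poly T) :
    Poly (fun a => step (ts a) (js a) (T a)) := by
  unfold step
  refine NPC.Poly.flatMap (l := fun a => idx (ts a)) (F := fun a c => (idx (ts a)).flatMap (fun d =>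
    (best (cands (ts a) (js a) (T a) c d)).elim [] (fun l => [((c, d), l)]))) (by fun_prop) ?_
  refine NPC.Poly.flatMap (l := fun q : α × ℕ => idx (ts q.1)) (F := fun q d =>
    (best (cands (ts q.1) (js q.1) (T q.1) q.2 d)).elim [] (fun l => [((q.2, d), l)]))
    (by fun_prop) ?_
  exact NPC.Poly.optElim (o := fun q : (α × ℕ) × ℕ =>
    best (cands (ts q.1.1) (js q.1.1) (T q.1.1) q.1.2 q.2)) (g := fun _ => ([] : List Entry))
    (h := fun q l => [((q.1.2, q.2), l)]) (by fun_prop) (by fun_prop) (by fun_prop)

attribute [fun_prop] poly_step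

end

theorem cands_sublist {ts : List Q} {js : List Job} {T : List Entry} {c d : ℕ} {l : List ℕ}
    (h : l ∈ cands ts js T c d) : l.Sublist (idx ts) := by
  unfold cands at h
  rw [List.mem_append, List.mem_flatMap] at h
  rcases h with h | ⟨j, _, h⟩
  · split_ifs at h
    · rw [List.mem_singleton] at h
      rw [h]
      exact List.filter_sublist
    · simp at h
  · split_ifs at h
    · rw [List.mem_flatMap] at h
      obtain ⟨e, _, h⟩ := h
      split_ifs at h
      · rw [List.mem_flatMap] at h
        obtain ⟨e', _, h⟩ := h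
        split_ifs at h
        · rw [List.mem_singleton] at h
          rw [h]
          exact List.filter_sublist
        · simp at h
      · simp at h
    · simp at h

theorem mem_step {ts : List Q} {js : List Job} {T : List Entry} {e : Entry} :
    e ∈ step ts js T ↔ e.1.1 ∈ idx ts ∧ e.1.2 ∈ idx ts ∧
      best (cands ts js T e.1.1 e.1.2) = some e.2 := by
  unfold step
  rw [List.mem_flatMap]
  constructor
  · rintro ⟨c, hc, h⟩
    rw [List.mem_flatMap] at h
    obtain ⟨d, hd, h⟩ := h
    cases hb : best (cands ts js T c d) with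
    | none => rw [hb] at h; simp at h
    | some l =>
      rw [hb] at h
      simp only [Option.elim, List.mem_singleton] at h
      rw [h]
      exact ⟨hc, hd, hb⟩
  · rintro ⟨h1, h2, h3⟩
    refine ⟨e.1.1, h1, ?_⟩
    rw [List.mem_flatMap]
    refine ⟨e.1.2, h2, ?_⟩
    rw [h3]
    simp

theorem length_step_le (ts : List Q) (js : List Job) (T : List Entry) :
    (step ts js T).length ≤ (idx ts).length * (idx ts).length := by
  unfold step
  rw [List.length_flatMap]
  have h1 : ∀ c ∈ idx ts, ((idx ts).flatMap (fun d =>
      (best (cands ts js T c d)).elim ([] : List Entry) (fun l => [((c, d), l)]))).length ≤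
      (idx ts).length := by
    intro c _
    rw [List.length_flatMap]
    have h2 : ∀ x ∈ (idx ts).map (fun d => ((best (cands ts js T c d)).elim ([] : List Entry)
        (fun l => [((c, d), l)])).length), x ≤ 1 := by
      intro x hx
      rw [List.mem_map] at hx
      obtain ⟨d, _, rfl⟩ := hx
      cases best (cands ts js T c d) <;> simp
    have h3 := List.sum_le_card_nsmul _ _ h2
    simpa using h3
  have h4 : ∀ x ∈ (idx ts).map (fun c => ((idx ts).flatMap (fun d =>
      (best (cands ts js T c d)).elim ([] : List Entry) (fun l => [((c, d), l)]))).length),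
      x ≤ (idx ts).length := by
    intro x hx
    rw [List.mem_map] at hx
    obtain ⟨c, hc, rfl⟩ := hx
    exact h1 c hc
  have h5 := List.sum_le_card_nsmul _ _ h4
  simpa using h5

theorem sz_step_le (ts : List Q) (js : List Job) (T : List Entry) :
    sz (step ts js T) ≤ (sz (idx ts) * sz (idx ts)) * (3 * sz (idx ts) + 3) + 1 := by
  have h1 : ∀ e ∈ step ts js T, sz e ≤ 3 * sz (idx ts) + 2 := by
    intro e he
    rw [mem_step] at he
    obtain ⟨h1, h2, h3⟩ := he
    have h4 := sz_le_of_mem h1
    have h5 := sz_le_of_mem h2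
    have h6 := sz_sublist (cands_sublist (best_mem h3))
    obtain ⟨⟨c, d⟩, l⟩ := e
    simp only [sz_pair] at *
    omega
  have h2 := sz_le_length_mul _ _ h1
  have h3 := length_step_le ts js T
  have h4 := length_lt_sz (idx ts)
  have h5 : (step ts js T).length ≤ sz (idx ts) * sz (idx ts) :=
    h3.trans (Nat.mul_le_mul h4.le h4.le)
  refine h2.trans ?_
  have h6 := Nat.mul_le_mul_right (3 * sz (idx ts) + 3) h5
  linarith

section

variable {α : Type} [TEnc α]

theorem poly_table {ts : α → List Q} {js : α → List Job} (hts : Poly ts) (hjs : Poly js) :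
    Poly (fun a => table (ts a) (js a)) := by
  unfold table
  have hi : Poly (fun a => idx (ts a)) := by fun_prop
  obtain ⟨r, hr⟩ := hi.sz_le
  refine NPC.Poly.iterLen (l := fun a => idx (ts a)) (s := fun _ => ([] : List Entry))
    (F := fun a T => step (ts a) (js a) T) hi (NPC.Poly.const _) (by fun_prop)
    (r * r * (3 * r + 3) + 1) ?_
  intro a k hk
  have key : sz ((step (ts a) (js a))^[k] []) ≤
      (sz (idx (ts a)) * sz (idx (ts a))) * (3 * sz (idx (ts a)) + 3) + 1 := by
    cases k with
    | zero => simp
    | succ k =>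
      rw [Function.iterate_succ_apply']
      exact sz_step_le _ _ _
  refine key.trans ?_
  have h1 := hr a
  simp only [eval_add, eval_mul, eval_ofNat, eval_one]
  have h2 := Nat.mul_le_mul (Nat.mul_le_mul h1 h1)
    (show 3 * sz (idx (ts a)) + 3 ≤ 3 * eval (sz a) r + 3 by omega)
  exact Nat.add_le_add_right h2 1

attribute [fun_prop] poly_table

theorem poly_keep {ts : α → List Q} {js : α → List Job} (hts : Poly ts) (hjs : Poly js) :
    Poly (fun a => keep (ts a) (js a)) := by
  unfold keep
  fun_prop

attribute [fun_prop] poly_keep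

theorem poly_gaps {ts : α → List Q} {K : α → List ℕ} {j : α → Job} (hts : Poly ts) (hK : Poly K)
    (hj : Poly j) : Poly (fun a => gaps (ts a) (K a) (j a)) := by
  unfold gaps
  fun_prop

attribute [fun_prop] poly_gaps

theorem poly_startT {ts : α → List Q} {j : α → Job} {g : α → ℕ × ℕ} (hts : Poly ts) (hj : Poly j)
    (hg : Poly g) : Poly (fun a => startT (ts a) (j a) (g a)) := by
  unfold startT
  refine NPC.Poly.ite (by fun_prop) (by fun_prop) ?_
  refine NPC.Poly.optElim (by fun_prop) (by fun_prop)
    (h := fun a ti => if rlt (radd ti (j a).2.2.2.2) (j a).1 = true then (j a).1 else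
      rhalf (radd (radd ti (j a).2.2.2.2) (((ts a)[(g a).2 - 1]?).elim
        (rsub (j a).2.1 (j a).2.2.1) (fun tk => rmin (rsub (j a).2.1 (j a).2.2.1)
          (rsub (radd tk (j a).2.2.2.1) (j a).2.2.1))))) ?_
  refine NPC.Poly.ite (by fun_prop) (by fun_prop) (poly_rhalf (poly_radd (by fun_prop) ?_))
  exact NPC.Poly.optElim (o := fun q : α × Q => (ts q.1)[(g q.1).2 - 1]?)
    (g := fun q => rsub (j q.1).2.1 (j q.1).2.2.1)
    (h := fun q tk => rmin (rsub (j q.1).2.1 (j q.1).2.2.1)
      (rsub (radd tk (j q.1).2.2.2.1) (j q.1).2.2.1)) (by fun_prop) (by fun_prop) (by fun_prop)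

attribute [fun_prop] poly_startT

theorem poly_start {ts : α → List Q} {K : α → List ℕ} {j : α → Job} (hts : Poly ts) (hK : Poly K)
    (hj : Poly j) : Poly (fun a => start (ts a) (K a) (j a)) := by
  unfold start
  fun_prop

attribute [fun_prop] poly_start

theorem poly_sched {ts : α → List Q} {js : α → List Job} (hts : Poly ts) (hjs : Poly js) :
    Poly (fun a => sched (ts a) (js a)) := by
  unfold sched
  fun_prop

attribute [fun_prop] poly_sched

end

/-- the algorithm runs in polynomial time -/
theorem poly_algo : Poly algo := by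
  unfold algo
  fun_prop

end Pool.Agent.R534.TP
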